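import Mathlib

/-! Polynomial lemmas for the direction problem in `F_p^3`. -/

set_option autoImplicit false

open Polynomial Finset

namespace Pool.Agent.Lib.MP_853269_co

variable {p : ℕ} [hp : Fact p.Prime]

/-- If all power sums of `f` over a `p`-element set vanish in degrees `< j` and `f` is not
constant there, then `f` takes more than `j` values. -/
theorem many_values {ι : Type*} (A : Finset ι) (hA : A.card = p) (f : ι → ZMod p) (j : ℕ)
    (hj : ∀ m < j, ∑ a ∈ A, f a ^ m = 0) (a b : ι) (ha : a ∈ A) (hb : b ∈ A)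
    (hab : f a ≠ f b) : j + 1 ≤ (A.image f).card := by
  classical
  by_contra hlt
  have hle : (A.image f).card ≤ j := by omega
  set q : (ZMod p)[X] := ∏ v ∈ (A.image f).erase (f a), (X - C v) with hq
  have hfa : f a ∈ A.image f := mem_image_of_mem f ha
  have hdeg : q.natDegree < j := by
    have h1 : q.natDegree = ((A.image f).erase (f a)).card := by
      rw [hq, natDegree_prod_of_monic _ _ (fun v _ => monic_X_sub_C v)]
      simp
    have h2 : 0 < (A.image f).card := card_pos.mpr ⟨_, hfa⟩
    rw [h1, card_erase_of_mem hfa]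
    omega
  have hsum : ∑ x ∈ A, q.eval (f x) = 0 := by
    have : ∀ x ∈ A, q.eval (f x) = ∑ m ∈ range j, q.coeff m * f x ^ m := fun x _ =>
      eval_eq_sum_range' hdeg _
    rw [sum_congr rfl this, sum_comm]
    refine sum_eq_zero fun m hm => ?_
    rw [← mul_sum, hj m (mem_range.mp hm), mul_zero]
  have hval : ∀ x ∈ A, q.eval (f x) = if f x = f a then q.eval (f a) else 0 := by
    intro x hx
    split_ifs with h
    · rw [h]
    · rw [hq, eval_prod]
      refine prod_eq_zero (i := f x) (mem_erase.mpr ⟨h, mem_image_of_mem f hx⟩) ?_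
      simp
  rw [sum_congr rfl hval, ← sum_filter, sum_const, nsmul_eq_mul] at hsum
  have hq0 : q.eval (f a) ≠ 0 := by
    rw [hq, eval_prod]
    refine prod_ne_zero_iff.mpr fun v hv => ?_
    have := (mem_erase.mp hv).1
    simpa [sub_eq_zero] using this.symm
  have hc : ((A.filter (fun x => f x = f a)).card : ZMod p) = 0 :=
    (mul_eq_zero.mp hsum).resolve_right hq0
  rw [ZMod.natCast_eq_zero_iff] at hc
  have hpos : 0 < (A.filter (fun x => f x = f a)).card := card_pos.mpr ⟨a, by simp [ha]⟩
  have hlt' : (A.filter (fun x => f x = f a)).card < A.card := by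
    refine card_lt_card ⟨filter_subset _ _, fun h => ?_⟩
    have := (mem_filter.mp (h hb)).2
    exact hab this.symm
  have := Nat.le_of_dvd hpos hc
  omega

/-- Weighted degree condition on a polynomial in two variables. -/
def Wt {K : Type*} [Field K] (P : K[X][X]) (m : ℕ) : Prop :=
  ∀ i, P.coeff i ≠ 0 → (P.coeff i).natDegree + i ≤ m

theorem Wt.add {K : Type*} [Field K] {P Q : K[X][X]} {m : ℕ} (hP : Wt P m) (hQ : Wt Q m) :
    Wt (P + Q) m := by
  intro i hi
  rw [coeff_add] at hi ⊢
  by_cases h1 : P.coeff i = 0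
  · rw [h1, zero_add] at hi ⊢
    exact hQ i hi
  by_cases h2 : Q.coeff i = 0
  · rw [h2, add_zero]
    exact hP i h1
  have := natDegree_add_le (P.coeff i) (Q.coeff i)
  have h3 := hP i h1
  have h4 := hQ i h2
  omega

theorem Wt.neg {K : Type*} [Field K] {P : K[X][X]} {m : ℕ} (hP : Wt P m) : Wt (-P) m := by
  intro i hi
  rw [coeff_neg] at hi ⊢
  rw [natDegree_neg]
  exact hP i (neg_ne_zero.mp hi)

theorem Wt.C_mul {K : Type*} [Field K] {P : K[X][X]} {m d : ℕ} (c : K[X]) (hc : c.natDegree ≤ d)
    (hP : Wt P m) : Wt (C c * P) (d + m) := by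
  intro i hi
  rw [coeff_C_mul] at hi ⊢
  have h1 := hP i (right_ne_zero_of_mul hi)
  have := natDegree_mul_le (p := c) (q := P.coeff i)
  omega

theorem Wt.X_mul {K : Type*} [Field K] {P : K[X][X]} {m : ℕ} (hP : Wt P m) :
    Wt (X * P) (m + 1) := by
  intro i hi
  cases i with
  | zero => simp at hi
  | succ i =>
    rw [coeff_X_mul] at hi ⊢
    have := hP i hi
    omega

theorem Wt.mono {K : Type*} [Field K] {P : K[X][X]} {m n : ℕ} (hP : Wt P m) (h : m ≤ n) :
    Wt P n := fun i hi => (hP i hi).trans h

theorem Wt.prod {K ι : Type*} [Field K] (s : Finset ι) (x : ι → K[X])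
    (hx : ∀ i, (x i).natDegree ≤ 1) : Wt (∏ i ∈ s, (X - C (x i))) s.card := by
  classical
  induction s using Finset.induction_on with
  | empty =>
    intro i hi
    rw [prod_empty] at hi ⊢
    rw [coeff_one] at hi ⊢
    split_ifs at hi ⊢ with h
    · simp [h]
    · exact absurd rfl hi
  | insert a s ha ih =>
    rw [prod_insert ha, card_insert_of_notMem ha, sub_mul, sub_eq_add_neg]
    refine ih.X_mul.add (Wt.neg ?_)
    exact (ih.C_mul (x a) (hx a)).mono (by omega)

theorem exists_rem {K : Type*} [Field K] (R : K[X][X]) (k : ℕ) (hk : 1 ≤ k) (hR : R.Monic)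
    (hRk : R.natDegree = k) (hW : Wt R k) (m : ℕ) :
    ∃ G : K[X][X], R ∣ X ^ m - G ∧ G.natDegree < k ∧ Wt G m := by
  induction m with
  | zero =>
    refine ⟨1, by simp, by rw [natDegree_one]; omega, ?_⟩
    intro i hi
    rw [coeff_one] at hi ⊢
    split_ifs at hi ⊢ with h
    · simp [h]
    · exact absurd rfl hi
  | succ m ih =>
    obtain ⟨G, hG1, hG2, hG3⟩ := ih
    obtain ⟨k, rfl⟩ : ∃ k', k = k' + 1 := ⟨k - 1, by omega⟩
    refine ⟨X * G - C (G.coeff k) * R, ?_, ?_, ?_⟩
    · have : X ^ (m + 1) - (X * G - C (G.coeff k) * R)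
          = X * (X ^ m - G) + C (G.coeff k) * R := by ring
      rw [this]
      exact dvd_add (hG1.mul_left _) (dvd_mul_left _ _)
    · rw [Nat.lt_succ_iff, natDegree_le_iff_coeff_eq_zero]
      intro N hN
      obtain ⟨N, rfl⟩ : ∃ N', N = N' + 1 := ⟨N - 1, by omega⟩
      rw [coeff_sub, coeff_X_mul, coeff_C_mul]
      rcases Nat.lt_or_ge k N with h | h
      · rw [coeff_eq_zero_of_natDegree_lt (p := G) (by omega),
          coeff_eq_zero_of_natDegree_lt (p := R) (by omega)]
        simp
      · have hN' : N = k := by omega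
        subst hN'
        have : R.coeff (N + 1) = 1 := by rw [← hRk]; exact hR.coeff_natDegree
        rw [this]
        simp
    · rw [sub_eq_add_neg]
      refine hG3.X_mul.add (Wt.neg ?_)
      by_cases h0 : G.coeff k = 0
      · intro i hi
        simp [h0] at hi
      · have h1 := hG3 k h0
        exact (hW.C_mul (G.coeff k) le_rfl).mono (by omega)

/-- The first half of Szőnyi's argument: if the slope `y₀` is determined and the slopes in `U`
are not, the number of lines of slope `y₀` that meet the set is at most `max 1 (p - |U|)`. -/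
theorem few_lines {ι : Type*} (s : Finset ι) (α β : ι → ZMod p) (U : Finset (ZMod p))
    (y₀ : ZMod p) (hU : ∀ y ∈ U, Set.InjOn (fun b => β b + y * α b) s)
    (h0 : ¬ Set.InjOn (fun b => β b + y₀ * α b) s)
    (h2 : 2 ≤ (s.image (fun b => β b + y₀ * α b)).card) :
    (s.image (fun b => β b + y₀ * α b)).card + U.card ≤ p := by
  classical
  have hk : 2 ≤ s.card := h2.trans card_image_le
  set x : ι → (ZMod p)[X] := fun b => C (β b) + X * C (α b) with hx
  have hxdeg : ∀ i, (x i).natDegree ≤ 1 := by
    intro i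
    simp only [hx]
    compute_degree
  set R : (ZMod p)[X][X] := ∏ i ∈ s, (X - C (x i)) with hR
  have hRm : R.Monic := monic_prod_of_monic _ _ (fun i _ => monic_X_sub_C _)
  have hRk : R.natDegree = s.card := by
    rw [hR, natDegree_prod_of_monic _ _ (fun v _ => monic_X_sub_C _)]
    simp
  obtain ⟨G, hG1, hG2, hG3⟩ := exists_rem R s.card (by omega) hRm hRk (Wt.prod s x hxdeg) p
  have hRy : ∀ y : ZMod p, R.map (evalRingHom y) = ∏ i ∈ s, (X - C (β i + y * α i)) := by
    intro y
    rw [hR, Polynomial.map_prod]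
    refine prod_congr rfl fun i _ => ?_
    rw [Polynomial.map_sub, map_X, map_C]
    simp only [hx, coe_evalRingHom, eval_add, eval_mul, eval_C, eval_X]
  have hdiv : ∀ y : ZMod p, ∏ i ∈ s, (X - C (β i + y * α i)) ∣ X ^ p - G.map (evalRingHom y) := by
    intro y
    have := Polynomial.map_dvd (evalRingHom y) hG1
    rw [hRy] at this
    simpa using this
  have hroot : ∀ v : ZMod p, (X ^ p - X : (ZMod p)[X]).IsRoot v := by
    intro v
    simp [ZMod.pow_card]
  -- for an undetermined slope the remainder is `X`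
  have hGy : ∀ y ∈ U, G.map (evalRingHom y) = X := by
    intro y hy
    have h1 : ∏ i ∈ s, (X - C (β i + y * α i)) ∣ (X ^ p - X : (ZMod p)[X]) := by
      refine Finset.prod_dvd_of_coprime ?_ ?_
      · intro i hi i' hi' hne
        refine isCoprime_X_sub_C_of_isUnit_sub ?_
        rw [isUnit_iff_ne_zero, sub_ne_zero]
        exact fun h => hne (hU y hy hi hi' h)
      · intro i _
        exact dvd_iff_isRoot.mpr (hroot _)
    have h3 : ∏ i ∈ s, (X - C (β i + y * α i)) ∣ G.map (evalRingHom y) - X := by
      have := dvd_sub h1 (hdiv y)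
      convert this using 1
      ring
    have h4 : (∏ i ∈ s, (X - C (β i + y * α i))).natDegree = s.card := by
      rw [natDegree_prod_of_monic _ _ (fun v _ => monic_X_sub_C _)]
      simp only [natDegree_X_sub_C]
      simp
    have h5 : (G.map (evalRingHom y) - X).natDegree < s.card := by
      have h6 : (G.map (evalRingHom y)).natDegree ≤ G.natDegree := natDegree_map_le
      have h7 := natDegree_sub_le (G.map (evalRingHom y)) X
      rw [natDegree_X] at h7
      omega
    have := eq_zero_of_dvd_of_natDegree_lt h3 (by rw [h4]; exact h5)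
    exact sub_eq_zero.mp this
  -- hence the high coefficients of the remainder vanish
  have hcoef : ∀ i, 2 ≤ i → p < i + U.card → G.coeff i = 0 := by
    intro i hi hiU
    by_contra hne
    have h1 := hG3 i hne
    refine hne (eq_zero_of_natDegree_lt_card_of_eval_eq_zero' _ U ?_ (by omega))
    intro y hy
    have := congrArg (fun P => P.coeff i) (hGy y hy)
    simp only [coeff_map, coe_evalRingHom] at this
    rw [this, coeff_X_of_ne_one (by omega)]
  set g : (ZMod p)[X] := G.map (evalRingHom y₀) - X with hg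
  have hg0 : g ≠ 0 := by
    intro h
    have h1 : G.map (evalRingHom y₀) = X := sub_eq_zero.mp h
    have h3 := hdiv y₀
    rw [h1] at h3
    have hsep : (X ^ p - X : (ZMod p)[X]).Separable := galois_poly_separable p p dvd_rfl
    have h4 := (hsep.of_dvd h3)
    rw [separable_prod_X_sub_C_iff'] at h4
    exact h0 (fun a ha b hb hab => h4 a ha b hb hab)
  have hgdeg : g.natDegree ≤ max 1 (p - U.card) := by
    rw [natDegree_le_iff_coeff_eq_zero]
    intro N hN
    have hN1 : 2 ≤ N := by omega
    rw [hg, coeff_sub, coeff_map, hcoef N hN1 (by omega), coeff_X_of_ne_one (by omega)]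
    simp
  have hsub : s.image (fun b => β b + y₀ * α b) ⊆ g.roots.toFinset := by
    intro v hv
    obtain ⟨i, hi, rfl⟩ := mem_image.mp hv
    rw [Multiset.mem_toFinset, mem_roots hg0]
    have h1 : (X - C (β i + y₀ * α i)) ∣ X ^ p - G.map (evalRingHom y₀) :=
      (Finset.dvd_prod_of_mem (fun i => (X - C (β i + y₀ * α i) : (ZMod p)[X])) hi).trans
        (hdiv y₀)
    have h3 := dvd_iff_isRoot.mp h1
    have h4 := hroot (β i + y₀ * α i)
    simp only [IsRoot.def, eval_sub, eval_pow, eval_X, hg] at h3 h4 ⊢
    linear_combination h4 - h3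
  have h5 : (s.image (fun b => β b + y₀ * α b)).card ≤ g.natDegree :=
    (card_le_card hsub).trans ((Multiset.toFinset_card_le _).trans (card_roots' g))
  omega

end Pool.Agent.Lib.MP_853269_co
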