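import Mathlib
import Pool.Agent.Lib.MP_853269_co.Planar

/-! A non-planar set of `p` points of `F_p^3` determines at least `p + 2` directions. -/

set_option autoImplicit false

open Finset Matrix

namespace Pool.Agent.Lib.MP_853269_co

variable {p : ℕ} [hp : Fact p.Prime]

/-- The power sum of the values of the linear form `w` on `A`. -/
def psum (A : Finset (Fin 3 → ZMod p)) (m : ℕ) (w : Fin 3 → ZMod p) : ZMod p :=
  ∑ a ∈ A, (w ⬝ᵥ a) ^ m

theorem psum_smul (A : Finset (Fin 3 → ZMod p)) (m : ℕ) (s : ZMod p) (w : Fin 3 → ZMod p) :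
    psum A m (s • w) = s ^ m * psum A m w := by
  simp only [psum, smul_dotProduct, smul_eq_mul, mul_pow, mul_sum]

/-- The linear form `W ↦ W ⬝ a` as a polynomial. -/
noncomputable def lin (a : Fin 3 → ZMod p) : MvPolynomial (Fin 3) (ZMod p) :=
  ∑ i, MvPolynomial.C (a i) * MvPolynomial.X i

theorem eval_lin (a w : Fin 3 → ZMod p) : MvPolynomial.eval w (lin a) = w ⬝ᵥ a := by
  simp [lin, dotProduct, mul_comm]

theorem deg_lin (a : Fin 3 → ZMod p) : (lin a).totalDegree ≤ 1 := by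
  refine MvPolynomial.totalDegree_finsetSum_le fun i _ => ?_
  refine (MvPolynomial.totalDegree_mul _ _).trans ?_
  simp

theorem deg_prod_lin {ι : Type*} (L : Finset ι) (q : ι → Fin 3 → ZMod p) :
    (∏ l ∈ L, lin (q l)).totalDegree ≤ L.card := by
  refine (MvPolynomial.totalDegree_finsetProd _ _).trans ?_
  exact (sum_le_card_nsmul _ _ 1 (fun l _ => deg_lin _)).trans (by simp)

theorem deg_pow_lin (a : Fin 3 → ZMod p) (m : ℕ) : (lin a ^ m).totalDegree ≤ m := by
  refine (MvPolynomial.totalDegree_pow _ _).trans ?_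
  simpa using Nat.mul_le_mul_left m (deg_lin a)

/-- A form of degree at most `2 (p - 1)` is not nonzero at exactly one point of the plane. -/
theorem one_point {ι κ : Type*} (A : Finset (Fin 3 → ZMod p)) (j : ℕ) (L : Finset ι)
    (q : ι → Fin 3 → ZMod p) (M : Finset κ) (t : κ → Fin 3 → ZMod p) (w₀ : Fin 3 → ZMod p)
    (hw₀ : w₀ ≠ 0)
    (h0 : psum A j w₀ * (∏ l ∈ L, w₀ ⬝ᵥ q l) * (∏ l ∈ M, w₀ ⬝ᵥ t l) ≠ 0)
    (h : ∀ w, psum A j w * (∏ l ∈ L, w ⬝ᵥ q l) * (∏ l ∈ M, w ⬝ᵥ t l) ≠ 0 →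
      ∃ s : ZMod p, w = s • w₀) :
    2 * p - 1 ≤ j + L.card + M.card := by
  classical
  by_contra hlt
  have hp2 := hp.out.two_le
  obtain ⟨e, he⟩ : ∃ e, j + L.card + M.card + e = 2 * (p - 1) :=
    ⟨2 * (p - 1) - (j + L.card + M.card), by omega⟩
  obtain ⟨g, hg⟩ : ∃ g, w₀ ⬝ᵥ g ≠ 0 := by
    by_contra hcon
    push Not at hcon
    exact hw₀ (dotProduct_eq_zero _ hcon)
  set H : (Fin 3 → ZMod p) → ZMod p := fun w =>
    psum A j w * (∏ l ∈ L, w ⬝ᵥ q l) * (∏ l ∈ M, w ⬝ᵥ t l) * (w ⬝ᵥ g) ^ e with hH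
  set P : MvPolynomial (Fin 3) (ZMod p) :=
    (∑ a ∈ A, lin a ^ j) * (∏ l ∈ L, lin (q l)) * (∏ l ∈ M, lin (t l)) * lin g ^ e with hP
  have hev : ∀ w, MvPolynomial.eval w P = H w := by
    intro w
    simp only [hP, hH, psum, map_mul, map_sum, map_prod, map_pow, eval_lin]
  have hdeg : P.totalDegree ≤ 2 * (p - 1) := by
    have h1 : (∑ a ∈ A, lin a ^ j).totalDegree ≤ j :=
      MvPolynomial.totalDegree_finsetSum_le fun a _ => deg_pow_lin a j
    have h2 := deg_prod_lin L q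
    have h3 := deg_prod_lin M t
    have h4 := deg_pow_lin g e
    have h5 := MvPolynomial.totalDegree_mul (∑ a ∈ A, lin a ^ j) (∏ l ∈ L, lin (q l))
    have h6 := MvPolynomial.totalDegree_mul ((∑ a ∈ A, lin a ^ j) * (∏ l ∈ L, lin (q l)))
      (∏ l ∈ M, lin (t l))
    have h7 := MvPolynomial.totalDegree_mul
      ((∑ a ∈ A, lin a ^ j) * (∏ l ∈ L, lin (q l)) * (∏ l ∈ M, lin (t l))) (lin g ^ e)
    rw [hP]
    omega
  have hsum : ∑ w, H w = 0 := by
    rw [← sum_congr rfl (fun w _ => hev w)]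
    refine MvPolynomial.sum_eval_eq_zero P ?_
    rw [ZMod.card, Fintype.card_fin]
    omega
  have hhom : ∀ s : ZMod p, H (s • w₀) = s ^ (2 * (p - 1)) * H w₀ := by
    intro s
    simp only [hH, psum_smul, smul_dotProduct, smul_eq_mul, prod_mul_distrib, prod_const,
      mul_pow, ← he]
    ring
  have hinj : Function.Injective (fun s : ZMod p => s • w₀) := smul_left_injective _ hw₀
  have hsum2 : ∑ w, H w = ∑ s : ZMod p, H (s • w₀) := by
    rw [← sum_image (s := univ) (g := fun s : ZMod p => s • w₀) (f := H)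
      (fun a _ b _ hab => hinj hab)]
    symm
    refine sum_subset (subset_univ _) fun w _ hw => ?_
    by_contra hne
    obtain ⟨s, rfl⟩ := h w (left_ne_zero_of_mul hne)
    exact hw (mem_image_of_mem _ (mem_univ s))
  have hsum3 : ∑ s : ZMod p, s ^ (2 * (p - 1)) = -1 := by
    have h1 : ∀ s : ZMod p, s ^ (2 * (p - 1)) = if s = 0 then 0 else 1 := by
      intro s
      split_ifs with hs
      · rw [hs, zero_pow (by omega)]
      · rw [mul_comm, pow_mul, ZMod.pow_card_sub_one_eq_one hs, one_pow]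
    rw [sum_congr rfl (fun s _ => h1 s)]
    have h2 : ∑ s : ZMod p, (if s = 0 then (0 : ZMod p) else 1)
        = ∑ s : ZMod p, ((1 : ZMod p) - if s = 0 then 1 else 0) :=
      sum_congr rfl fun s _ => by split_ifs <;> simp
    rw [h2, sum_sub_distrib]
    simp
  rw [hsum2, sum_congr rfl (fun s _ => hhom s), ← sum_mul, hsum3] at hsum
  have : H w₀ ≠ 0 := mul_ne_zero h0 (pow_ne_zero _ hg)
  exact this (by simpa using hsum)

theorem smul_of_cross_eq_zero {K : Type*} [Field K] {x y : Fin 3 → K} (hx : x ≠ 0)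
    (h : x ⨯₃ y = 0) : ∃ s : K, y = s • x := by
  by_contra hcon
  refine (crossProduct_ne_zero_iff_linearIndependent.mpr ?_) h
  rw [LinearIndependent.pair_iff' hx]
  exact fun a ha => hcon ⟨a, ha.symm⟩

theorem smul_of_perp {K : Type*} [Field K] {x y w w₀ : Fin 3 → K} (hxy : x ⨯₃ y ≠ 0)
    (hw₀ : w₀ ≠ 0) (h1 : w ⬝ᵥ x = 0) (h2 : w ⬝ᵥ y = 0) (h3 : w₀ ⬝ᵥ x = 0) (h4 : w₀ ⬝ᵥ y = 0) :
    ∃ s : K, w = s • w₀ := by
  have key : ∀ u : Fin 3 → K, u ⬝ᵥ x = 0 → u ⬝ᵥ y = 0 → ∃ s : K, u = s • (x ⨯₃ y) := by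
    intro u hx hy
    refine smul_of_cross_eq_zero hxy ?_
    rw [cross_cross_eq_smul_sub_smul, dotProduct_comm x, dotProduct_comm y, hx, hy]
    simp
  obtain ⟨s, rfl⟩ := key w h1 h2
  obtain ⟨t, rfl⟩ := key w₀ h3 h4
  have ht : t ≠ 0 := by
    rintro rfl
    exact hw₀ (zero_smul _ _)
  exact ⟨s / t, by rw [smul_smul, div_mul_cancel₀ _ ht]⟩

theorem eq_zero_of_perp {K : Type*} [Field K] {d e c w : Fin 3 → K} (h : (d ⨯₃ e) ⬝ᵥ c ≠ 0)
    (h1 : w ⬝ᵥ d = 0) (h2 : w ⬝ᵥ e = 0) (h3 : w ⬝ᵥ c = 0) : w = 0 := by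
  have hde : d ⨯₃ e ≠ 0 := by
    intro h0
    rw [h0] at h
    exact h (zero_dotProduct _)
  have h4 : (d ⨯₃ e) ⨯₃ w = 0 := by
    rw [cross_cross_eq_smul_sub_smul, dotProduct_comm d, dotProduct_comm e, h1, h2]
    simp
  obtain ⟨s, rfl⟩ := smul_of_cross_eq_zero hde h4
  rw [smul_dotProduct, smul_eq_mul] at h3
  rw [(mul_eq_zero.mp h3).resolve_right h, zero_smul]

theorem psum_eq_zero_of_injOn (A : Finset (Fin 3 → ZMod p)) (hA : A.card = p)
    (w : Fin 3 → ZMod p) (hw : Set.InjOn (fun a => w ⬝ᵥ a) A) (m : ℕ) (hm : m < p - 1) :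
    psum A m w = 0 := by
  classical
  have h1 : A.image (fun a => w ⬝ᵥ a) = univ := by
    refine eq_univ_of_card _ ?_
    rw [card_image_of_injOn hw, hA, ZMod.card]
  have h2 := sum_image (s := A) (g := fun a => w ⬝ᵥ a) (f := fun v : ZMod p => v ^ m) hw
  rw [psum, ← h2, h1]
  exact FiniteField.sum_pow_lt_card_sub_one (ZMod p) m (by rwa [ZMod.card])

/-- The main bound, for a family `r` of pairwise non-proportional vectors covering all
directions of `A`. -/
theorem main_bound {ι : Type*} (A : Finset (Fin 3 → ZMod p)) (hA : A.card = p)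
    (hnp : ∀ v : Fin 3 → ZMod p, v ≠ 0 → ∀ c, ∃ a ∈ A, v ⬝ᵥ a ≠ c)
    (D : Finset ι) (r : ι → Fin 3 → ZMod p)
    (hcov : ∀ a ∈ A, ∀ b ∈ A, a ≠ b → ∃ i ∈ D, ∃ c : ZMod p, a - b = c • r i)
    (hind : ∀ i ∈ D, ∀ i' ∈ D, i ≠ i' → r i ⨯₃ r i' ≠ 0) : p + 2 ≤ D.card := by
  classical
  have hp2 := hp.out.two_le
  -- a line missing all directions gives an injective form
  have hext : ∀ w : Fin 3 → ZMod p, (∀ i ∈ D, w ⬝ᵥ r i ≠ 0) → Set.InjOn (fun a => w ⬝ᵥ a) A := by
    intro w hw a ha b hb hab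
    by_contra hne
    obtain ⟨i, hi, c, hc⟩ := hcov a ha b hb hne
    have h1 : w ⬝ᵥ (a - b) = 0 := by rw [dotProduct_sub]; exact sub_eq_zero.mpr hab
    rw [hc, dotProduct_smul, smul_eq_mul] at h1
    have hc0 : c = 0 := (mul_eq_zero.mp h1).resolve_right (hw i hi)
    rw [hc0, zero_smul] at hc
    exact hne (sub_eq_zero.mp hc)
  -- every nonzero vector has a nonzero orthogonal vector
  have hperp : ∀ x : Fin 3 → ZMod p, ∃ w : Fin 3 → ZMod p, w ≠ 0 ∧ w ⬝ᵥ x = 0 := by
    intro x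
    by_cases h0 : x 0 = 0
    · refine ⟨Pi.single 0 1, ?_, by simp [h0]⟩
      intro h
      simpa using congrFun h 0
    · refine ⟨![x 1, -x 0, 0], ?_, by rw [vec3_dotProduct]; simp; ring⟩
      intro h
      exact h0 (by simpa using congrFun h 1)
  obtain ⟨a₀, ha₀, b₀, hb₀, hab₀⟩ := one_lt_card.mp (by omega : 1 < A.card)
  -- some power sum of degree at most `p - 2` is nonzero
  have hex : ∃ m, m < p - 1 ∧ ∃ w, psum A m w ≠ 0 := by
    by_contra hcon
    push Not at hcon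
    obtain ⟨w, hw0, hw⟩ := hperp (a₀ - b₀)
    obtain ⟨c, hc, hwc⟩ := hnp w hw0 (w ⬝ᵥ a₀)
    have h1 := many_values A hA (fun a => w ⬝ᵥ a) (p - 1) (fun m hm => hcon m hm w) c a₀ hc ha₀
      hwc
    have h2 : (A.image (fun a => w ⬝ᵥ a)).card = A.card :=
      le_antisymm card_image_le (by omega)
    have h3 := card_image_iff.mp h2
    rw [dotProduct_sub] at hw
    exact hab₀ (h3 ha₀ hb₀ (sub_eq_zero.mp hw))
  set j := Nat.find hex with hj
  obtain ⟨hjp, w₁, hw₁⟩ : j < p - 1 ∧ ∃ w, psum A j w ≠ 0 := Nat.find_spec hex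
  have hmin : ∀ m < j, ∀ w, psum A m w = 0 := by
    intro m hm w
    have := Nat.find_min hex hm
    push Not at this
    exact this (by omega) w
  have hmeet : ∀ w, psum A j w ≠ 0 → ∃ i ∈ D, w ⬝ᵥ r i = 0 := by
    intro w hw
    by_contra hcon
    push Not at hcon
    exact hw (psum_eq_zero_of_injOn A hA w (hext w hcon) j hjp)
  have hne0 : ∀ w, psum A j w ≠ 0 → w ≠ 0 := by
    rintro w hw rfl
    apply hw
    simp [psum, hA]
  by_cases hcase : ∀ w, psum A j w ≠ 0 → 2 ≤ (D.filter (fun i => w ⬝ᵥ r i = 0)).card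
  · -- no tangent line on which the power sum is nonzero
    have h1 := one_point A j (D.filter (fun i => ¬ w₁ ⬝ᵥ r i = 0)) r (∅ : Finset Unit)
      (fun _ => 0) w₁ (hne0 _ hw₁) ?_ ?_
    · have h2 := hcase w₁ hw₁
      have h3 := card_filter_add_card_filter_not (s := D) (fun i => w₁ ⬝ᵥ r i = 0)
      rw [card_empty] at h1
      omega
    · rw [prod_empty, mul_one]
      exact mul_ne_zero hw₁ (prod_ne_zero_iff.mpr fun i hi => (mem_filter.mp hi).2)
    · intro w hw
      rw [prod_empty, mul_one] at hw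
      obtain ⟨i, hi, i', hi', hne⟩ := one_lt_card.mp (hcase w (left_ne_zero_of_mul hw))
      have h4 := prod_ne_zero_iff.mp (right_ne_zero_of_mul hw)
      obtain ⟨hi1, hi2⟩ := mem_filter.mp hi
      obtain ⟨hi1', hi2'⟩ := mem_filter.mp hi'
      refine smul_of_perp (hind i hi1 i' hi1' hne) (hne0 _ hw₁) hi2 hi2' ?_ ?_
      · by_contra hc
        exact h4 i (mem_filter.mpr ⟨hi1, hc⟩) hi2
      · by_contra hc
        exact h4 i' (mem_filter.mpr ⟨hi1', hc⟩) hi2'
  · -- a tangent line on which the power sum is nonzero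
    push Not at hcase
    obtain ⟨w₀, hw₀, hcard⟩ := hcase
    obtain ⟨i₀, hi₀, hwi₀⟩ := hmeet w₀ hw₀
    have htan : ∀ i ∈ D, i ≠ i₀ → w₀ ⬝ᵥ r i ≠ 0 := by
      intro i hi hne h
      have : 1 < (D.filter (fun i => w₀ ⬝ᵥ r i = 0)).card :=
        one_lt_card.mpr ⟨i, mem_filter.mpr ⟨hi, h⟩, i₀, mem_filter.mpr ⟨hi₀, hwi₀⟩, hne⟩
      omega
    set d := r i₀ with hd
    obtain ⟨b, hb, hwb⟩ := hnp w₀ (hne0 _ hw₀) (w₀ ⬝ᵥ a₀)
    set e := b - a₀ with he
    have hwe : w₀ ⬝ᵥ e ≠ 0 := by rw [he, dotProduct_sub]; exact sub_ne_zero.mpr hwb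
    have hba : b ≠ a₀ := by
      rintro rfl
      exact hwb rfl
    obtain ⟨i₁, hi₁, c₁, hc₁⟩ := hcov b hb a₀ ha₀ hba
    rw [← he] at hc₁
    have hi₁₀ : i₁ ≠ i₀ := by
      rintro rfl
      rw [hc₁, dotProduct_smul, hwi₀, smul_zero] at hwe
      exact hwe rfl
    have hc₁0 : c₁ ≠ 0 := by
      rintro rfl
      rw [hc₁, zero_smul, dotProduct_zero] at hwe
      exact hwe rfl
    set u := d ⨯₃ e with hu
    have hu0 : u ≠ 0 := by
      rw [hu, hc₁, map_smul]
      exact smul_ne_zero hc₁0 (hind i₀ hi₀ i₁ hi₁ hi₁₀.symm)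
    have hud : u ⬝ᵥ d = 0 := by rw [dotProduct_comm]; exact dot_self_cross d e
    have hue : u ⬝ᵥ e = 0 := by rw [dotProduct_comm]; exact dot_cross_self d e
    obtain ⟨c, hc, huc⟩ := hnp u hu0 (u ⬝ᵥ a₀)
    set f := c - a₀ with hf
    have huf : u ⬝ᵥ f ≠ 0 := by rw [hf, dotProduct_sub]; exact sub_ne_zero.mpr huc
    set T : Finset (ZMod p) :=
      univ.filter (fun z => ∀ i ∈ D, i ≠ i₀ → (w₀ + z • u) ⬝ᵥ r i ≠ 0) with hT
    have hT0 : (0 : ZMod p) ∈ T := by
      rw [hT, mem_filter]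
      refine ⟨mem_univ _, ?_⟩
      simpa using htan
    -- the polynomial bound
    have h1 := one_point A j (D.erase i₀) r (T.erase 0)
      (fun z => ((w₀ + z • u) ⬝ᵥ f) • e - ((w₀ + z • u) ⬝ᵥ e) • f) w₀ (hne0 _ hw₀) ?_ ?_
    · -- the planar bound
      set z₀ : ZMod p := -(w₀ ⬝ᵥ f) / (u ⬝ᵥ f) with hz₀
      set B : Finset (ZMod p × ZMod p) := A.image (fun a => (w₀ ⬝ᵥ a, u ⬝ᵥ a)) with hB
      have himg : B.image (fun x => x.1 + z₀ * x.2) = A.image (fun a => (w₀ + z₀ • u) ⬝ᵥ a) := by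
        rw [hB, image_image]
        refine image_congr fun a _ => ?_
        simp [add_dotProduct]
      have h2 : j + 1 ≤ (A.image (fun a => (w₀ + z₀ • u) ⬝ᵥ a)).card := by
        refine many_values A hA _ j (fun m hm => hmin m hm _) b a₀ hb ha₀ ?_
        rw [← sub_ne_zero, ← dotProduct_sub, ← he, add_dotProduct, smul_dotProduct, hue,
          smul_zero, add_zero]
        exact hwe
      have hj1 : 1 ≤ j := by
        by_contra hj0
        have : j = 0 := by omega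
        apply hw₀
        simp [psum, this, hA]
      have h3 := few_lines B Prod.snd Prod.fst T z₀ ?_ ?_ (by rw [himg]; omega)
      · rw [himg] at h3
        rw [card_erase_of_mem hi₀, card_erase_of_mem hT0] at h1
        have h4 : 0 < D.card := card_pos.mpr ⟨_, hi₀⟩
        have h5 : 0 < T.card := card_pos.mpr ⟨_, hT0⟩
        omega
      · intro z hz x hx x' hx' hxx
        obtain ⟨a, ha, rfl⟩ := mem_image.mp (mem_coe.mp hx)
        obtain ⟨a', ha', rfl⟩ := mem_image.mp (mem_coe.mp hx')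
        by_cases haa : a = a'
        · rw [haa]
        obtain ⟨i, hi, s, hs⟩ := hcov a ha a' ha' haa
        have hs0 : s ≠ 0 := by
          rintro rfl
          rw [zero_smul] at hs
          exact haa (sub_eq_zero.mp hs)
        by_cases hii : i = i₀
        · subst hii
          have e1 : w₀ ⬝ᵥ (a - a') = 0 := by rw [hs, dotProduct_smul, hwi₀, smul_zero]
          have e2 : u ⬝ᵥ (a - a') = 0 := by rw [hs, dotProduct_smul, hud, smul_zero]
          rw [dotProduct_sub, sub_eq_zero] at e1 e2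
          rw [e1, e2]
        · exfalso
          have e1 := (mem_filter.mp hz).2 i hi hii
          have e2 : (w₀ + z • u) ⬝ᵥ (a - a') = 0 := by
            simp only [add_dotProduct, smul_dotProduct, dotProduct_sub, smul_eq_mul] at hxx ⊢
            linear_combination hxx
          rw [hs, dotProduct_smul, smul_eq_mul] at e2
          exact e1 ((mul_eq_zero.mp e2).resolve_left hs0)
      · intro hinj
        have e1 : ((w₀ ⬝ᵥ c, u ⬝ᵥ c) : ZMod p × ZMod p) = (w₀ ⬝ᵥ a₀, u ⬝ᵥ a₀) := by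
          refine hinj (mem_coe.mpr (mem_image_of_mem _ hc)) (mem_coe.mpr (mem_image_of_mem _ ha₀)) ?_
          have e2 : w₀ ⬝ᵥ f + z₀ * (u ⬝ᵥ f) = 0 := by
            rw [hz₀, div_mul_cancel₀ _ huf, add_neg_cancel]
          simp only [hf, dotProduct_sub] at e2
          simp only
          linear_combination e2
        exact huc (congrArg Prod.snd e1)
    · refine mul_ne_zero (mul_ne_zero hw₀ (prod_ne_zero_iff.mpr fun i hi => ?_))
        (prod_ne_zero_iff.mpr fun z hz => ?_)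
      · exact htan i (mem_erase.mp hi).2 (mem_erase.mp hi).1
      · have hz0 := (mem_erase.mp hz).1
        have : w₀ ⬝ᵥ (((w₀ + z • u) ⬝ᵥ f) • e - ((w₀ + z • u) ⬝ᵥ e) • f)
            = z * (u ⬝ᵥ f) * (w₀ ⬝ᵥ e) := by
          simp only [add_dotProduct, smul_dotProduct, dotProduct_sub, dotProduct_smul,
            smul_eq_mul, hue]
          ring
        rw [this]
        exact mul_ne_zero (mul_ne_zero hz0 huf) hwe
    · intro w hw
      have g1 := left_ne_zero_of_mul (left_ne_zero_of_mul hw)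
      have g2 := prod_ne_zero_iff.mp (right_ne_zero_of_mul (left_ne_zero_of_mul hw))
      have g3 := prod_ne_zero_iff.mp (right_ne_zero_of_mul hw)
      have hwd : w ⬝ᵥ d = 0 := by
        obtain ⟨i, hi, hwi⟩ := hmeet w g1
        by_cases hii : i = i₀
        · rw [hd, ← hii]; exact hwi
        · exact absurd hwi (g2 i (mem_erase.mpr ⟨hii, hi⟩))
      have hwe' : w ⬝ᵥ e ≠ 0 := by
        rw [hc₁, dotProduct_smul, smul_eq_mul]
        exact mul_ne_zero hc₁0 (g2 i₁ (mem_erase.mpr ⟨hi₁₀, hi₁⟩))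
      set s : ZMod p := (w ⬝ᵥ e) / (w₀ ⬝ᵥ e) with hs
      have hs0 : s ≠ 0 := div_ne_zero hwe' hwe
      set z : ZMod p := (w ⬝ᵥ f - s * (w₀ ⬝ᵥ f)) / (s * (u ⬝ᵥ f)) with hz
      have hws : w = s • (w₀ + z • u) := by
        rw [← sub_eq_zero]
        refine eq_zero_of_perp (d := d) (e := e) (c := f) huf ?_ ?_ ?_
        · simp only [sub_dotProduct, add_dotProduct, smul_dotProduct, smul_eq_mul, hwd, hwi₀, hud]
          ring
        · simp only [sub_dotProduct, add_dotProduct, smul_dotProduct, smul_eq_mul, hue]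
          rw [hs]
          field_simp
          ring
        · simp only [sub_dotProduct, add_dotProduct, smul_dotProduct, smul_eq_mul]
          rw [hz]
          field_simp
          ring
      have hzT : z ∈ T := by
        rw [hT, mem_filter]
        refine ⟨mem_univ _, fun i hi hii h => g2 i (mem_erase.mpr ⟨hii, hi⟩) ?_⟩
        rw [hws, smul_dotProduct, h, smul_zero]
      have hz0 : z = 0 := by
        by_contra hz0
        refine g3 z (mem_erase.mpr ⟨hz0, hzT⟩) ?_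
        conv_lhs => rw [hws]
        simp only [smul_dotProduct, dotProduct_sub, dotProduct_smul, smul_eq_mul]
        ring
      exact ⟨s, by rw [hws, hz0, zero_smul, add_zero]⟩

/-- A set of `p` points of `F_p^3` lies in a plane or determines at least `p + 2` directions. -/
theorem directions (p : ℕ) (hp : p.Prime) (A : Finset (Fin 3 → ZMod p)) (hA : A.card = p) :
    (∃ v : Fin 3 → ZMod p, v ≠ 0 ∧ ∃ c : ZMod p, ∀ a ∈ A, ∑ i, v i * a i = c) ∨
      p + 2 ≤ Set.ncard {W : Submodule (ZMod p) (Fin 3 → ZMod p) |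
        ∃ a ∈ A, ∃ b ∈ A, a ≠ b ∧ W = Submodule.span (ZMod p) {a - b}} := by
  classical
  have : Fact p.Prime := ⟨hp⟩
  rw [or_iff_not_imp_left]
  intro hnp
  push Not at hnp
  set S := {W : Submodule (ZMod p) (Fin 3 → ZMod p) |
        ∃ a ∈ A, ∃ b ∈ A, a ≠ b ∧ W = Submodule.span (ZMod p) {a - b}} with hS
  have hfin : S.Finite := Set.toFinite _
  have hrep : ∀ W : Submodule (ZMod p) (Fin 3 → ZMod p), ∃ x : Fin 3 → ZMod p,
      W ∈ S → x ≠ 0 ∧ W = Submodule.span (ZMod p) {x} := by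
    intro W
    by_cases hW : W ∈ S
    · obtain ⟨a, _, b, _, hab, rfl⟩ := hW
      exact ⟨a - b, fun _ => ⟨sub_ne_zero.mpr hab, rfl⟩⟩
    · exact ⟨0, fun h => absurd h hW⟩
  choose r hr using hrep
  rw [Set.ncard_eq_toFinset_card S hfin]
  refine main_bound A hA hnp hfin.toFinset r ?_ ?_
  · intro a ha b hb hab
    have hW : Submodule.span (ZMod p) {a - b} ∈ S := ⟨a, ha, b, hb, hab, rfl⟩
    refine ⟨_, hfin.mem_toFinset.mpr hW, ?_⟩
    have h1 : a - b ∈ Submodule.span (ZMod p) {r (Submodule.span (ZMod p) {a - b})} := by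
      rw [← (hr _ hW).2]
      exact Submodule.mem_span_singleton_self _
    obtain ⟨c, hc⟩ := Submodule.mem_span_singleton.mp h1
    exact ⟨c, hc.symm⟩
  · intro W hW W' hW' hne h
    rw [hfin.mem_toFinset] at hW hW'
    obtain ⟨s, hs⟩ := smul_of_cross_eq_zero (hr W hW).1 h
    have hs0 : s ≠ 0 := by
      rintro rfl
      exact (hr W' hW').1 (by rw [hs, zero_smul])
    apply hne
    rw [(hr W hW).2, (hr W' hW').2, hs,
      Submodule.span_singleton_smul_eq (IsUnit.mk0 s hs0)]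

end Pool.Agent.Lib.MP_853269_co
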